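import Pool.Agent.N662.FP.Stm3

/-! FN/BKP+BB: the van den Berg-Kesten inequality for two passage times, from its finite form, and
the union bound for two deficits (project of helper662, MP_de94ef_pr). -/

set_option autoImplicit false
open MeasureTheory ProbabilityTheory Filter Set
open scoped ENNReal Pointwise Topology

namespace Pool.Agent.N118.FN

open Pool.Agent.N662.FP

/-- the edges between points of the box -/
noncomputable def BE (R : ℕ) : Finset (Sym2 (ℤ × ℤ)) :=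
  open Classical in (Box R ×ˢ Box R).image fun q => s(q.1, q.2)

theorem mem_BE {R : ℕ} {u v : ℤ × ℤ} (hu : u ∈ Box R) (hv : v ∈ Box R) : s(u, v) ∈ BE R := by
  unfold BE
  classical
  exact Finset.mem_image.2 ⟨(u, v), Finset.mem_product.2 ⟨hu, hv⟩, rfl⟩

/-- the edges of a path -/
noncomputable def EG (n : ℕ) (p : ℕ → ℤ × ℤ) : Finset (Sym2 (ℤ × ℤ)) :=
  open Classical in (Finset.range n).image fun i => s(p i, p (i + 1))

theorem mem_EG {n : ℕ} {p : ℕ → ℤ × ℤ} {e : Sym2 (ℤ × ℤ)} :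
    e ∈ EG n p ↔ ∃ i < n, s(p i, p (i + 1)) = e := by
  unfold EG
  classical
  simp only [Finset.mem_image, Finset.mem_range]

theorem edge_inj {n : ℕ} {p : ℕ → ℤ × ℤ} (h : ∀ i ≤ n, ∀ j ≤ n, p i = p j → i = j) :
    ∀ i < n, ∀ j < n, s(p i, p (i + 1)) = s(p j, p (j + 1)) → i = j := by
  intro i hi j hj e
  rcases Sym2.eq_iff.1 e with ⟨e1, _⟩ | ⟨e1, e2⟩
  · exact h i hi.le j hj.le e1
  · have h1 := h i hi.le (j + 1) hj e1
    have h2 := h (i + 1) hi j hj.le e2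
    omega

/-- the edges of a path, as a set of edges of the box -/
noncomputable def ES (R n : ℕ) (p : ℕ → ℤ × ℤ) : Finset {e // e ∈ BE R} :=
  open Classical in (EG n p).subtype (· ∈ BE R)

theorem mem_ES {R n : ℕ} {p : ℕ → ℤ × ℤ} {e : {e // e ∈ BE R}} :
    e ∈ ES R n p ↔ ∃ i < n, s(p i, p (i + 1)) = e.1 := by
  unfold ES
  classical
  rw [Finset.mem_subtype, mem_EG]

theorem sum_ES {R n : ℕ} {x z : ℤ × ℤ} {p : ℕ → ℤ × ℤ} (hp : Pth R x z n p)
    (w : Sym2 (ℤ × ℤ) → ℝ) : ∑ e ∈ ES R n p, w e.1 = Tm w n p := by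
  obtain ⟨_, _, _, h4, h5⟩ := hp
  unfold ES
  classical
  rw [Finset.sum_subtype_of_mem (f := w)]
  · unfold EG Tm
    rw [Finset.sum_image]
    intro i hi j hj e
    exact edge_inj h4 i (Finset.mem_range.1 hi) j (Finset.mem_range.1 hj) e
  · intro e he
    obtain ⟨i, hi, rfl⟩ := mem_EG.1 he
    exact mem_BE (h5 i hi.le) (h5 (i + 1) hi)

theorem disj_ES {R n m : ℕ} {p q : ℕ → ℤ × ℤ}
    (h : ∀ i < n, ∀ j < m, s(p i, p (i + 1)) ≠ s(q j, q (j + 1))) :
    Disjoint (ES R n p) (ES R m q) := by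
  rw [Finset.disjoint_left]
  intro e h1 h2
  obtain ⟨i, hi, e1⟩ := mem_ES.1 h1
  obtain ⟨j, hj, e2⟩ := mem_ES.1 h2
  exact h i hi j hj (e1.trans e2.symm)

/-- the edge sets of the paths from `x` to `z` -/
noncomputable def PE (R : ℕ) (x z : ℤ × ℤ) : Finset (Finset {e // e ∈ BE R}) :=
  open Classical in Finset.univ.filter fun S => ∃ n p, Pth R x z n p ∧ S = ES R n p

theorem mem_PE {R : ℕ} {x z : ℤ × ℤ} {S : Finset {e // e ∈ BE R}} :
    S ∈ PE R x z ↔ ∃ n p, Pth R x z n p ∧ S = ES R n p := by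
  unfold PE
  classical
  rw [Finset.mem_filter]
  exact ⟨fun h => h.2, fun h => ⟨Finset.mem_univ _, h⟩⟩

theorem meas_A {ι : Type} [Fintype ι] (P : Finset (Finset ι)) (s : ℝ) :
    MeasurableSet {f : ι → ℝ | ∃ S ∈ P, ∑ i ∈ S, f i ≤ s} := by
  have e : {f : ι → ℝ | ∃ S ∈ P, ∑ i ∈ S, f i ≤ s} =
      ⋃ S ∈ P, {f : ι → ℝ | ∑ i ∈ S, f i ≤ s} := by
    ext f
    simp only [Set.mem_ofPred_eq, Set.mem_iUnion, exists_prop]
  rw [e]
  refine Finset.measurableSet_biUnion _ fun S _ => ?_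
  exact measurableSet_le (Finset.measurable_sum S fun i _ => measurable_pi_apply i)
    measurable_const

theorem t_BKP (h1 : S_BKF) (h2 : S_AE) (h3 : S_GE) : S_BKP := by
  intro Ω _ _ X hX R x z y s t
  classical
  have hprob : IsProbabilityMeasure (expMeasure 1) := isProbabilityMeasure_expMeasure one_pos
  obtain ⟨Y, hY⟩ : ∃ Y : Ω → {e // e ∈ BE R} → ℝ, Y = fun ω e => X e.1 ω := ⟨_, rfl⟩
  have hYm : Measurable Y := by
    rw [hY]
    exact measurable_pi_lambda _ fun i => hX.meas _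
  have hlaw : Measure.map Y (volume : Measure Ω) =
      Measure.pi fun _ : {e // e ∈ BE R} => expMeasure 1 := by
    have hi : iIndepFun (fun i : {e // e ∈ BE R} => X i.1) (volume : Measure Ω) :=
      hX.ind.precomp Subtype.val_injective
    have h4 := (iIndepFun_iff_map_fun_eq_pi_map
      (fun i : {e // e ∈ BE R} => (hX.meas i.1).aemeasurable)).1 hi
    rw [hY, h4]
    congr 1
    funext i
    exact hX.law _
  have hYe : ∀ ω (e : {e // e ∈ BE R}), Y ω e = env X ω e.1 := by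
    intro ω e
    rw [hY]
    rfl
  have hsum : ∀ ω (u v : ℤ × ℤ) (n : ℕ) (p : ℕ → ℤ × ℤ), Pth R u v n p →
      ∑ e ∈ ES R n p, Y ω e = Tm (env X ω) n p := by
    intro ω u v n p hp
    rw [← sum_ES hp (env X ω)]
    exact Finset.sum_congr rfl fun e _ => hYe ω e
  -- one path
  have hone : ∀ (u v : ℤ × ℤ) (r : ℝ), (Measure.pi fun _ : {e // e ∈ BE R} => expMeasure 1)
      {f | ∃ S ∈ PE R u v, ∑ i ∈ S, f i ≤ r} ≤
      (volume : Measure Ω) {ω | D (env X ω) u v ≤ r} := by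
    intro u v r
    rw [← hlaw, Measure.map_apply hYm (meas_A _ _)]
    refine measure_mono_ae ?_
    filter_upwards [h2 Ω X hX] with ω hω hin
    obtain ⟨S, hS, hle⟩ := hin
    obtain ⟨n, p, hp, rfl⟩ := mem_PE.1 hS
    rw [hsum ω u v n p hp] at hle
    obtain ⟨_, hb, _, _⟩ := h3 (env X ω) hω u v
    show D (env X ω) u v ≤ r
    refine le_trans (csInf_le hb ?_) hle
    exact ⟨n, p, hp.1, hp.2.1, hp.2.2.1, rfl⟩
  -- two paths
  have htwo : (volume : Measure Ω) {ω | Two (env X ω) R x z y s t} ≤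
      (Measure.pi fun _ : {e // e ∈ BE R} => expMeasure 1)
        {f | ∃ S ∈ PE R x z, ∃ S' ∈ PE R z y, Disjoint S S' ∧ ∑ i ∈ S, f i ≤ s ∧
          ∑ i ∈ S', f i ≤ t} := by
    rw [← hlaw]
    refine le_trans (measure_mono ?_) (Measure.le_map_apply hYm.aemeasurable _)
    intro ω hω
    obtain ⟨n, p, m, q, hp, hq, hd, hs, ht⟩ := hω
    refine ⟨ES R n p, mem_PE.2 ⟨n, p, hp, rfl⟩, ES R m q, mem_PE.2 ⟨m, q, hq, rfl⟩,
      disj_ES hd, ?_, ?_⟩
    · rw [hsum ω x z n p hp]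
      exact hs
    · rw [hsum ω z y m q hq]
      exact ht
  have hmain : (volume : Measure Ω) {ω | Two (env X ω) R x z y s t} ≤
      (volume : Measure Ω) {ω | D (env X ω) x z ≤ s} *
        (volume : Measure Ω) {ω | D (env X ω) z y ≤ t} :=
    le_trans htwo (le_trans (h1 {e // e ∈ BE R} (expMeasure 1) (PE R x z) (PE R z y) s t)
      (mul_le_mul' (hone x z s) (hone z y t)))
  have := ENNReal.toReal_mono (ENNReal.mul_ne_top (measure_ne_top _ _) (measure_ne_top _ _)) hmain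
  rw [ENNReal.toReal_mul] at this
  exact this

theorem card_Box (R : ℕ) : ((Box R).card : ℝ) = (2 * R + 1) ^ 2 := by
  have h : (Box R).card = (2 * R + 1) * (2 * R + 1) := by
    unfold Box
    rw [Finset.card_product, Int.card_Icc]
    have : ((R : ℤ) + 1 - -(R : ℤ)).toNat = 2 * R + 1 := by omega
    rw [this]
  rw [h]
  push_cast
  ring

theorem sub_mem_Box {R : ℕ} {u v : ℤ × ℤ} (hu : u ∈ Box R) (hv : v ∈ Box R) :
    u - v ∈ Box (2 * R) := by
  unfold Box at hu hv ⊢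
  rw [Finset.mem_product, Finset.mem_Icc, Finset.mem_Icc] at hu hv ⊢
  obtain ⟨⟨a1, a2⟩, a3, a4⟩ := hu
  obtain ⟨⟨b1, b2⟩, b3, b4⟩ := hv
  rw [Prod.fst_sub, Prod.snd_sub]
  push_cast
  refine ⟨⟨?_, ?_⟩, ?_, ?_⟩ <;> linarith

theorem t_BB (h1 : S_BKP) (h2 : S_TIL2) : S_BB := by
  intro Ω _ _ X hX μ R a ρ hρ h
  have hsub : {ω | BB μ (env X ω) R a} ⊆ ⋃ q ∈ Box R ×ˢ Box R ×ˢ Box R,
      {ω | Two (env X ω) R q.1 q.2.1 q.2.2 (μ (em (q.2.1 - q.1)) - a)
        (μ (em (q.2.2 - q.2.1)) - a)} := by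
    intro ω hω
    obtain ⟨x, hx, z, hz, y, hy, hT⟩ := hω
    refine Set.mem_iUnion₂.2 ⟨(x, z, y), ?_, hT⟩
    exact Finset.mem_product.2 ⟨hx, Finset.mem_product.2 ⟨hz, hy⟩⟩
  have hone : ∀ u ∈ Box R, ∀ v ∈ Box R,
      (volume : Measure Ω).real {ω | D (env X ω) u v ≤ μ (em (v - u)) - a} ≤ ρ := by
    intro u hu v hv
    rw [h2 Ω X hX u v]
    exact h _ (sub_mem_Box hv hu)
  have hterm : ∀ q ∈ Box R ×ˢ Box R ×ˢ Box R, (volume : Measure Ω).real
      {ω | Two (env X ω) R q.1 q.2.1 q.2.2 (μ (em (q.2.1 - q.1)) - a)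
        (μ (em (q.2.2 - q.2.1)) - a)} ≤ ρ ^ 2 := by
    intro q hq
    obtain ⟨hx, hq2⟩ := Finset.mem_product.1 hq
    obtain ⟨hz, hy⟩ := Finset.mem_product.1 hq2
    refine le_trans (h1 Ω X hX R _ _ _ _ _) ?_
    rw [sq]
    exact mul_le_mul (hone _ hx _ hz) (hone _ hz _ hy) measureReal_nonneg hρ
  calc (volume : Measure Ω).real {ω | BB μ (env X ω) R a}
      ≤ (volume : Measure Ω).real (⋃ q ∈ Box R ×ˢ Box R ×ˢ Box R,
          {ω | Two (env X ω) R q.1 q.2.1 q.2.2 (μ (em (q.2.1 - q.1)) - a)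
            (μ (em (q.2.2 - q.2.1)) - a)}) := measureReal_mono hsub (measure_ne_top _ _)
    _ ≤ ∑ q ∈ Box R ×ˢ Box R ×ˢ Box R, (volume : Measure Ω).real
          {ω | Two (env X ω) R q.1 q.2.1 q.2.2 (μ (em (q.2.1 - q.1)) - a)
            (μ (em (q.2.2 - q.2.1)) - a)} := measureReal_biUnion_finset_le _ _
    _ ≤ (Box R ×ˢ Box R ×ˢ Box R).card • ρ ^ 2 := Finset.sum_le_card_nsmul _ _ _ hterm
    _ = (2 * R + 1) ^ 6 * ρ ^ 2 := by
        rw [nsmul_eq_mul, Finset.card_product, Finset.card_product]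
        push_cast
        rw [card_Box]
        ring

end Pool.Agent.N118.FN
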